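import Pool.Agent.Lib_helper31.LSP2.Bx
import Pool.Agent.Lib_helper19.LSPD.DXC

/-! LSP2, part O2: block INST (the parameters of `X`). -/

set_option autoImplicit false

namespace Pool.Agent.LSPO2

open Pool.Agent.LSPO (GOK)
open Finset

theorem Ins_powY {x : ℝ} (hx : 0 ≤ x) (s : ℝ) (n : ℕ) : (x ^ s) ^ n = x ^ (s * n) := by
  rw [← Real.rpow_natCast, ← Real.rpow_mul hx]

theorem Ins_floor {y : ℝ} (hy : 1 ≤ y) : y / 2 ≤ (⌊y⌋₊ : ℝ) := by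
  have h1 : (1 : ℝ) ≤ (⌊y⌋₊ : ℝ) := by
    have : 1 ≤ ⌊y⌋₊ := Nat.le_floor (by simpa using hy)
    exact_mod_cast this
  have h2 := Nat.lt_floor_add_one y
  linarith

theorem Ins_fac {x κ P R : ℝ} (hx1 : 1 ≤ x) (h0 : 0 < κ) (h3 : κ ≤ 1 / 10000)
    (hT20 : 20 ≤ x ^ (κ / 40)) (hP1 : x ^ (200 * κ) ≤ P) (hR2 : x ^ (200 * κ) / 2 ≤ R) :
    x ^ (κ / 40) * (P ^ (-(1 / 2) : ℝ) + R ^ (-(1 / 2) : ℝ) + x ^ (-(1 / 50) : ℝ)) ≤
      1 / x ^ (κ / 20 * (1999 : ℕ)) := by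
  have hx0 : 0 < x := by linarith
  have mono : ∀ {s t : ℝ}, s ≤ t → x ^ s ≤ x ^ t := fun h => Real.rpow_le_rpow_of_exponent_le hx1 h
  have add : ∀ s t : ℝ, x ^ (s + t) = x ^ s * x ^ t := fun s t => Real.rpow_add hx0 s t
  have pos : ∀ s : ℝ, 0 < x ^ s := fun s => Real.rpow_pos_of_pos hx0 s
  have t1 : P ^ (-(1 / 2) : ℝ) ≤ x ^ (-(100 * κ)) := by
    have : P ^ (-(1 / 2) : ℝ) ≤ (x ^ (200 * κ)) ^ (-(1 / 2) : ℝ) :=
      Real.rpow_le_rpow_of_nonpos (pos _) hP1 (by norm_num)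
    rw [← Real.rpow_mul hx0.le] at this
    refine this.trans (le_of_eq ?_)
    congr 1; ring
  have t2 : R ^ (-(1 / 2) : ℝ) ≤ 2 * x ^ (-(100 * κ)) := by
    have : R ^ (-(1 / 2) : ℝ) ≤ (x ^ (200 * κ) / 2) ^ (-(1 / 2) : ℝ) :=
      Real.rpow_le_rpow_of_nonpos (by have := pos (200 * κ); positivity) hR2 (by norm_num)
    rw [Real.div_rpow (pos _).le (by norm_num), ← Real.rpow_mul hx0.le] at this
    have e3 : (2 : ℝ) ^ (-(1 / 2) : ℝ) ≥ 1 / 2 := by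
      have : (2 : ℝ) ^ (-1 : ℝ) ≤ (2 : ℝ) ^ (-(1 / 2) : ℝ) :=
        Real.rpow_le_rpow_of_exponent_le (by norm_num) (by norm_num)
      rw [Real.rpow_neg_one] at this
      linarith
    have e4 : x ^ (200 * κ * (-(1 / 2))) = x ^ (-(100 * κ)) := by congr 1; ring
    rw [e4] at this
    refine this.trans ?_
    rw [div_le_iff₀ (by linarith)]
    have := pos (-(100 * κ))
    nlinarith
  have t3 : x ^ (-(1 / 50) : ℝ) ≤ x ^ (-(100 * κ)) := mono (by linarith)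
  have e5 : 1 / x ^ (κ / 20 * (1999 : ℕ)) = x ^ (κ / 40) * (x ^ (κ / 40) * x ^ (-(100 * κ))) := by
    rw [one_div, ← Real.rpow_neg hx0.le, ← add, ← add]; congr 1; push_cast; ring
  rw [e5]
  refine mul_le_mul_of_nonneg_left ?_ (pos _).le
  have := pos (-(100 * κ))
  nlinarith

theorem inst_pr {G : ℝ → ℝ} {U c : ℝ} (hG : GOK G U c) {B₀ : ℕ} (hB : U ≤ B₀) {κ v : ℝ}
    (h0 : 0 < κ) (h1 : 1000 * κ ≤ v) (h2 : v ≤ 1 / 80) (h3 : κ ≤ 1 / 10000) :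
    ∃ X₀ : ℕ, ∀ X : ℕ, X₀ ≤ X → ∀ N : ℕ, N.Prime → X ≤ 4 * N → N ≤ 8 * X →
    ∀ P : Finset ℕ, P ⊆ LSP.PB κ v X → ∀ θ : ℕ → ℝ, (∀ p ∈ P, |θ p| ≤ 1) →
    ∀ (Q : ℕ) (a : ℕ → ℝ), (∀ m, |a m| ≤ (X : ℝ) ^ (κ / 20) / m) → (∀ m, a m ≠ 0 → m ≤ Q) →
      (Q : ℝ) * (X : ℝ) ^ (v + κ) ≤ 2 * (X : ℝ) ^ (1 + 5 * κ) →
      O2P G U c ((X : ℝ) ^ (κ / 20)) X (2 * (X : ℝ) ^ (v + κ)) N Q
        (2 * (B₀ + 1) * LSP.E2 κ X) (LSP.R2 κ X) P θ a := by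
  have hU := hG.one_le
  have hc := hG.one_le'
  obtain ⟨C, hC0, hC⟩ := Pool.Agent.FG61.divisor_bound (ε := κ / 80) (by positivity)
  obtain ⟨XD, hXD1, hXD⟩ := LSPD.disp_X (ε := κ / 40) (by positivity)
  have hBpos : (0 : ℝ) ≤ B₀ := Nat.cast_nonneg _
  have hA0 : 0 ≤ 1000 * c * (80 / κ + U + 2) ^ 2 := by positivity
  set K : ℝ := 20 + C + 2 * (B₀ + 1) + 1000 * c * (80 / κ + U + 2) ^ 2 with hK
  have hev1 : ∀ᶠ X : ℕ in Filter.atTop, K ≤ (X : ℝ) ^ (κ / 40) :=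
    ((tendsto_rpow_atTop (by positivity : 0 < κ / 40)).comp
      tendsto_natCast_atTop_atTop).eventually_ge_atTop K
  have hev2 : ∀ᶠ X : ℕ in Filter.atTop, XD ≤ (X : ℝ) :=
    tendsto_natCast_atTop_atTop.eventually_ge_atTop XD
  obtain ⟨X₀, hX₀⟩ := Filter.eventually_atTop.1 (hev1.and hev2)
  refine ⟨X₀, fun X hX N hN hN1 hN2 P hP θ hθ Q a ha has hQ => ?_⟩
  obtain ⟨hKX, hXDX⟩ := hX₀ X hX
  set x : ℝ := (X : ℝ) with hx
  have hx1 : 1 ≤ x := hXD1.trans hXDX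
  have hx0 : 0 < x := by linarith
  have mono : ∀ {s t : ℝ}, s ≤ t → x ^ s ≤ x ^ t := fun h => Real.rpow_le_rpow_of_exponent_le hx1 h
  have add : ∀ s t : ℝ, x ^ (s + t) = x ^ s * x ^ t := fun s t => Real.rpow_add hx0 s t
  have pos : ∀ s : ℝ, 0 < x ^ s := fun s => Real.rpow_pos_of_pos hx0 s
  have one : ∀ {s : ℝ}, 0 ≤ s → 1 ≤ x ^ s := fun h => Real.one_le_rpow hx1 h
  have hT20 : 20 ≤ x ^ (κ / 40) := by linarith
  have hTC : C ≤ x ^ (κ / 40) := by linarith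
  have hTB : 2 * ((B₀ : ℝ) + 1) ≤ x ^ (κ / 40) := by linarith
  have hTA : 1000 * c * (80 / κ + U + 2) ^ 2 ≤ x ^ (κ / 40) := by linarith
  have big : ∀ {s : ℝ}, κ / 40 ≤ s → 20 ≤ x ^ s := fun h => hT20.trans (mono h)
  have bigB : ∀ {s : ℝ}, κ / 40 ≤ s → 2 * ((B₀ : ℝ) + 1) ≤ x ^ s := fun h => hTB.trans (mono h)
  have hY : ∀ n : ℕ, (x ^ (κ / 20)) ^ n = x ^ (κ / 20 * n) := fun n => Ins_powY hx0.le _ n
  have hE2 : x ^ (1 / 2 + 3 * κ) / 2 ≤ (LSP.E2 κ X : ℝ) :=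
    Ins_floor (one (by positivity))
  have hE2' : (LSP.E2 κ X : ℝ) ≤ x ^ (1 / 2 + 3 * κ) := Nat.floor_le (pos _).le
  have hR2 : x ^ (200 * κ) / 2 ≤ (LSP.R2 κ X : ℝ) := Ins_floor (one (by positivity))
  have hR2' : (LSP.R2 κ X : ℝ) ≤ x ^ (200 * κ) := Nat.floor_le (pos _).le
  have hR21 : 1 ≤ LSP.R2 κ X := Nat.le_floor (by simpa using one (by positivity))
  have hDl : ((2 * (B₀ + 1) * LSP.E2 κ X : ℕ) : ℝ) ≤ x ^ (1 / 2 + 4 * κ) := by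
    push_cast
    have e1 : x ^ (1 / 2 + 4 * κ) = x ^ κ * x ^ (1 / 2 + 3 * κ) := by
      rw [← add]; congr 1; ring
    rw [e1]
    exact mul_le_mul (bigB (by linarith)) hE2' (Nat.cast_nonneg _) (pos _).le
  have hV40 : 2 * x ^ (v + κ) ≤ x ^ (1 / 40 : ℝ) := by
    have e1 : x ^ (1 / 40 : ℝ) = x ^ (1 / 40 - (v + κ)) * x ^ (v + κ) := by
      rw [← add]; congr 1; ring
    rw [e1]
    have := big (s := 1 / 40 - (v + κ)) (by linarith)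
    exact mul_le_mul_of_nonneg_right (by linarith) (pos _).le
  refine ⟨hG, hx1, ?_, ?_, ?_, ?_, hN, ?_, ?_, ?_, ?_, hθ, ha, has, ?_, ?_, ?_, ?_, ?_⟩
  · -- hY
    have l1 : Real.log x ≤ x ^ (κ / 80) / (κ / 80) := Real.log_le_rpow_div hx0.le (by positivity)
    have l2 : 1 ≤ x ^ (κ / 80) := one (by positivity)
    have l3 : Real.log x + U + 2 ≤ (80 / κ + U + 2) * x ^ (κ / 80) := by
      have : x ^ (κ / 80) / (κ / 80) = 80 / κ * x ^ (κ / 80) := by field_simp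
      rw [this] at l1
      nlinarith
    have l0 : 0 ≤ Real.log x := Real.log_nonneg hx1
    have l4 : (Real.log x + U + 2) ^ 2 ≤ ((80 / κ + U + 2) * x ^ (κ / 80)) ^ 2 := by
      apply pow_le_pow_left₀ (by positivity) l3
    have l5 : ((80 / κ + U + 2) * x ^ (κ / 80)) ^ 2 = (80 / κ + U + 2) ^ 2 * x ^ (κ / 40) := by
      rw [mul_pow, Ins_powY hx0.le]; congr 2; push_cast; ring
    have l6 : x ^ (κ / 20) = x ^ (κ / 40) * x ^ (κ / 40) := by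
      rw [← add]; congr 1; ring
    calc 1000 * c * (Real.log x + U + 2) ^ 2
        ≤ 1000 * c * ((80 / κ + U + 2) ^ 2 * x ^ (κ / 40)) := by
          rw [← l5]; gcongr
      _ = (1000 * c * (80 / κ + U + 2) ^ 2) * x ^ (κ / 40) := by ring
      _ ≤ x ^ (κ / 40) * x ^ (κ / 40) := by
          exact mul_le_mul_of_nonneg_right hTA (pos _).le
      _ = x ^ (κ / 20) := l6.symm
  · -- hx
    rw [hY]
    calc x ^ (κ / 20 * (16000 : ℕ)) ≤ x ^ (1 : ℝ) := mono (by push_cast; linarith)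
      _ = x := Real.rpow_one x
  · rw [hx]; exact_mod_cast hN1
  · rw [hx]; exact_mod_cast hN2
  · -- pr
    intro p hp
    have hp' := hP hp
    rw [LSP.PB, Finset.mem_filter, Finset.mem_Icc] at hp'
    obtain ⟨⟨hp1, hp2⟩, hpp, hp3⟩ := hp'
    refine ⟨hpp, ?_, ?_⟩
    · rw [hY]
      have e1 : x ^ v = x ^ (v - 200 * κ) * x ^ (200 * κ) := by
        rw [← add]; congr 1; ring
      have e2 : x ^ (κ / 20 * (4000 : ℕ)) = x ^ (200 * κ) := by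
        congr 1; push_cast; ring
      rw [e2]
      have := big (s := v - 200 * κ) (by linarith)
      have h4 : 8 * x ^ (200 * κ) ≤ x ^ v := by
        rw [e1]
        exact mul_le_mul_of_nonneg_right (by linarith) (pos _).le
      linarith
    · exact (Nat.cast_le.2 hp2).trans (Nat.floor_le (mul_nonneg (by norm_num) (pos _).le))
  · -- hV
    rw [hY]
    have e1 : x * x ^ (κ / 20 * (100 : ℕ)) = x ^ (1 + 5 * κ) := by
      rw [add, Real.rpow_one]; congr 2; push_cast; ring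
    rw [e1]
    calc 2 * x ^ (v + κ) * Q = 2 * (Q * x ^ (v + κ)) := by ring
      _ ≤ 2 * (2 * x ^ (1 + 5 * κ)) := by gcongr
      _ = 4 * x ^ (1 + 5 * κ) := by ring
  · -- hV1
    rw [hY]
    calc 2 * x ^ (v + κ) * x ^ (κ / 20 * (4000 : ℕ))
        ≤ x ^ (1 / 40 : ℝ) * x ^ (κ / 20 * (4000 : ℕ)) :=
          mul_le_mul_of_nonneg_right hV40 (pos _).le
      _ = x ^ (1 / 40 + κ / 20 * (4000 : ℕ)) := (add _ _).symm
      _ ≤ x ^ (1 : ℝ) := mono (by push_cast; linarith)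
      _ = x := Real.rpow_one x
  · -- V1
    have := one (s := v + κ) (by linarith)
    linarith
  · -- ta
    intro m hm hm2
    unfold LSPO.tau
    have hm0 : (0 : ℝ) ≤ m := Nat.cast_nonneg _
    calc (m.divisors.card : ℝ) ≤ C * (m : ℝ) ^ (κ / 80) := hC m hm
      _ ≤ C * (x ^ 2) ^ (κ / 80) := by gcongr
      _ = C * x ^ (κ / 40) := by
          rw [← Real.rpow_natCast x 2, ← Real.rpow_mul hx0.le]; congr 2; push_cast; ring
      _ ≤ x ^ (κ / 40) * x ^ (κ / 40) := mul_le_mul_of_nonneg_right hTC (pos _).le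
      _ = x ^ (κ / 20) := by rw [← add]; congr 1; ring
  · -- D1
    rw [hY]
    have e1 : x * x ^ (κ / 20 * (100 : ℕ)) = x ^ (1 + 5 * κ) := by
      rw [add, Real.rpow_one]; congr 2; push_cast; ring
    rw [e1]
    push_cast
    have e2 : (x ^ (1 / 2 + 3 * κ)) ^ 2 = x ^ κ * x ^ (1 + 5 * κ) := by
      rw [Ins_powY hx0.le, ← add]; congr 1; push_cast; ring
    have h5 : ((B₀ : ℝ) + 1) * x ^ (1 / 2 + 3 * κ) ≤ 2 * (B₀ + 1) * (LSP.E2 κ X : ℝ) := by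
      have : 2 * ((B₀ : ℝ) + 1) * (x ^ (1 / 2 + 3 * κ) / 2) ≤ 2 * (B₀ + 1) * (LSP.E2 κ X : ℝ) :=
        mul_le_mul_of_nonneg_left hE2 (by positivity)
      linarith
    have h6 : (((B₀ : ℝ) + 1) * x ^ (1 / 2 + 3 * κ)) ^ 2 ≤ (2 * (B₀ + 1) * (LSP.E2 κ X : ℝ)) ^ 2 :=
      pow_le_pow_left₀ (by positivity) h5 2
    refine le_trans ?_ h6
    rw [mul_pow, e2]
    have h7 : (1 + U) ≤ ((B₀ : ℝ) + 1) ^ 2 := by nlinarith
    have h8 := big (s := κ) (by linarith)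
    calc 20 * (1 + U) * x ^ (1 + 5 * κ) = (1 + U) * (20 * x ^ (1 + 5 * κ)) := by ring
      _ ≤ ((B₀ : ℝ) + 1) ^ 2 * (x ^ κ * x ^ (1 + 5 * κ)) := by
          have := pos (1 + 5 * κ)
          gcongr
  · -- D2
    calc ((2 * (B₀ + 1) * LSP.E2 κ X : ℕ) : ℝ) ≤ x ^ (1 / 2 + 4 * κ) := hDl
      _ ≤ x ^ (1 : ℝ) := mono (by linarith)
      _ = x := Real.rpow_one x
  · -- R2
    calc (LSP.R2 κ X : ℝ) ≤ x ^ (200 * κ) := hR2'
      _ ≤ x ^ (1 : ℝ) := mono (by linarith)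
      _ = x := Real.rpow_one x
  · -- hd
    intro P₀ M₀ D hP1 hP2 hPM1 hPM2 hD1 hD2 r S hr hS b a'
    simp only [hY] at hP1 hPM1 hPM2 hr ⊢
    have e0 : x ^ (κ / 20 * (4000 : ℕ)) = x ^ (200 * κ) := by
      congr 1; push_cast; ring
    have e40 : x ^ (κ / 20 * (40 : ℕ)) = x ^ (2 * κ) := by
      congr 1; push_cast; ring
    have e120 : x * x ^ (κ / 20 * (120 : ℕ)) = x ^ (1 + 3 * (2 * κ)) := by
      rw [add, Real.rpow_one]; congr 2; push_cast; ring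
    rw [e0] at hP1
    rw [e40] at hPM1
    rw [e120] at hPM2 hr
    have hP0 : 1 ≤ P₀ := by
      have := (one (s := 200 * κ) (by positivity)).trans hP1
      exact_mod_cast this
    have hPM1' : x ^ (1 - 2 * κ) ≤ (P₀ : ℝ) * M₀ := by
      have e1 : x = x ^ (2 * κ) * x ^ (1 - 2 * κ) := by
        rw [← add]
        conv_lhs => rw [← Real.rpow_one x]
        congr 1; ring
      have h9 : x ^ (2 * κ) * x ^ (1 - 2 * κ) ≤ x ^ (2 * κ) * ((P₀ : ℝ) * M₀) := by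
        rw [← e1]; exact hPM1
      exact le_of_mul_le_mul_left h9 (pos _)
    have hD3 : (D : ℝ) ≤ x ^ (1 / 2 + 2 * (2 * κ)) := by
      have h10 : (D : ℝ) ≤ ((2 * (B₀ + 1) * LSP.E2 κ X : ℕ) : ℝ) := by exact_mod_cast hD2
      refine (h10.trans hDl).trans (mono (by linarith))
    have hR3 : (LSP.R2 κ X : ℝ) ≤ x ^ (1 / 40 : ℝ) := hR2'.trans (mono (by linarith))
    have key := hXD x hXDX (2 * κ) (by positivity) (by linarith) P₀ M₀ D (LSP.R2 κ X) hP0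
      (hP2.trans hV40) hPM1' hPM2 hD1 hD3 hR21 hR3 r S hr hS b a'
    refine key.trans ?_
    set A : ℝ := Real.sqrt ((P₀ : ℝ) * M₀) with hAdef
    set B : ℝ := Real.sqrt (∑ p ∈ S, b p ^ 2) with hBdef
    set E : ℝ := Real.sqrt (∑ m ∈ Ioc M₀ (2 * M₀), a' m ^ 2) with hEdef
    have hA1 : 0 ≤ A := Real.sqrt_nonneg _
    have hB1 : 0 ≤ B := Real.sqrt_nonneg _
    have hE1 : 0 ≤ E := Real.sqrt_nonneg _
    have t4 := Ins_fac hx1 h0 h3 hT20 hP1 hR2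
    calc x ^ (κ / 40) * A * B * E * ((P₀ : ℝ) ^ (-(1 / 2) : ℝ) +
          (LSP.R2 κ X : ℝ) ^ (-(1 / 2) : ℝ) + x ^ (-(1 / 50) : ℝ))
        = (x ^ (κ / 40) * ((P₀ : ℝ) ^ (-(1 / 2) : ℝ) + (LSP.R2 κ X : ℝ) ^ (-(1 / 2) : ℝ) +
            x ^ (-(1 / 50) : ℝ))) * (A * B * E) := by ring
      _ ≤ 1 / x ^ (κ / 20 * (1999 : ℕ)) * (A * B * E) :=
          mul_le_mul_of_nonneg_right t4 (by positivity)

end Pool.Agent.LSPO2
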